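import Mathlib

/-!
# MP_1c8600_lc: the notions of the problem for a type `E`

`A : ℕ → Set E` is the given sequence of subsets of `E`.
-/

set_option autoImplicit false

namespace Pool.MP_1c8600_lc

variable {E : Type}

/-- The rectangle `A (n 0) × ⋯ × A (n (m-1))` in `E^m`. -/
def rect (A : ℕ → Set E) (m : ℕ) (n : Fin m → ℕ) : Set (Fin m → E) := {x | ∀ i, x i ∈ A (n i)}

/-- `S` belongs to the `σ`-algebra `𝓑_m` on `E^m` generated by the rectangles. -/
def IsBorel (A : ℕ → Set E) (m : ℕ) (S : Set (Fin m → E)) : Prop :=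
  MeasurableSpace.GenerateMeasurable (Set.range (rect A m)) S

/-- The projection of `S ⊆ E^(m+1)` onto `E^m` (deleting the last coordinate). -/
def proj {m : ℕ} (S : Set (Fin (m + 1) → E)) : Set (Fin m → E) :=
  {x | ∃ y, (Fin.snoc x y : Fin (m + 1) → E) ∈ S}

/-- `IsSigma A k m S`: the set `S ⊆ E^m` belongs to `Σ_{k+1}^{(m)}`. -/
def IsSigma (A : ℕ → Set E) : ℕ → (m : ℕ) → Set (Fin m → E) → Prop
  | 0, m, S => ∃ B : Set (Fin (m + 1) → E), IsBorel A (m + 1) B ∧ S = proj B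
  | k + 1, m, S => ∃ T : Set (Fin (m + 1) → E), IsSigma A k (m + 1) T ∧ S = proj Tᶜ

/-- `S ⊆ E` is projective over `A`: it belongs to some `Σ_k^{(1)}` or `Π_k^{(1)}`, `k ≥ 1`. -/
def IsProjective (A : ℕ → Set E) (S : Set (Fin 1 → E)) : Prop :=
  ∃ k, IsSigma A k 1 S ∨ IsSigma A k 1 Sᶜ

/-- `IsClass A α S`: the set `S ⊆ E` belongs to the Borel class `𝓒_α`. -/
inductive IsClass (A : ℕ → Set E) : Ordinal.{0} → Set E → Prop
  | gen (n : ℕ) : IsClass A 0 (A n)
  | gen_compl (n : ℕ) : IsClass A 0 (A n)ᶜ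
  | union (α : Ordinal.{0}) (S : ℕ → Set E) (β : ℕ → Ordinal.{0}) (hβ : ∀ n, β n < α)
      (hS : ∀ n, IsClass A (β n) (S n)) : IsClass A α (⋃ n, S n)
  | union_compl (α : Ordinal.{0}) (S : ℕ → Set E) (β : ℕ → Ordinal.{0}) (hβ : ∀ n, β n < α)
      (hS : ∀ n, IsClass A (β n) (S n)) : IsClass A α (⋃ n, S n)ᶜ

/-- Property (a): for every countable ordinal `α` some set of the `σ`-algebra generated by the
`A n` is not in `𝓒_α`. -/
def PropA (A : ℕ → Set E) : Prop :=
  ∀ α : Ordinal.{0}, α < Ordinal.omega 1 →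
    ∃ S, MeasurableSpace.GenerateMeasurable (Set.range A) S ∧ ¬ IsClass A α S

/-- Property (b)_{k+1}: every projective set is in `Σ_{k+1}^{(1)}`. -/
def PropB (A : ℕ → Set E) (k : ℕ) : Prop := ∀ S, IsProjective A S → IsSigma A k 1 S

/-- The positive answer: for every `k` some sequence of subsets of `ℝ` has (a) and (b)_{k+1}. -/
def Positive : Prop := ∀ k, ∃ A : ℕ → Set ℝ, PropA A ∧ PropB A k

end Pool.MP_1c8600_lc
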