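import Pool.Agent.Lib.MP_1c8600_lc.ModDefs
import Pool.Agent.Lib.MP_1c8600_lv.Basic

/-!
# MP_1c8600_lc: the interface between the forcing extension and descriptive set theory
-/

set_option autoImplicit false

namespace Pool.MP_1c8600_lc

open Pool.PC Pool.LV

/-- The real `c` belongs to `V`. -/
def RealV (V : Set ZFSet.{0}) (c : ℕ → Bool) : Prop := nset {n | c n = true} ∈ V

open Classical in
/-- The real `{n | (n, x) ∈ b}`. -/
noncomputable def hxZ (b x : ZFSet.{0}) : ℕ → Bool := fun n => decide (ZFSet.pair (num n) x ∈ b)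

/-- A relation on the natural numbers as a set of ordered pairs of numerals. -/
noncomputable def relZ (r : ℕ → ℕ → Prop) : ZFSet.{0} :=
  ZFSet.range (fun p : {p : ℕ × ℕ // r p.1 p.2} => ZFSet.pair (num p.1.1) (num p.1.2))

/-- H*: every set of reals of `V` is a `σ`-set or is mapped onto the reals by a continuous map
defined on a `G_δ` set. -/
def HStar (V : Set ZFSet.{0}) : Prop :=
  ∀ E ∈ V, ∀ b ∈ V,
    (∀ c, RealV V c → ∃ d, RealV V d ∧ ∀ x ∈ E, (Gd c (hxZ b x) ↔ ¬ Gd d (hxZ b x))) ∨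
      ∃ c, RealV V c ∧ ∀ z, RealV V z → ∃ x ∈ E, GR c (hxZ b x) z

end Pool.MP_1c8600_lc
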