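import Pool.Agent.Lib.MP_ad72f3_pc.Pat

/-!
# MP_1c8600_lc: the notions of the problem inside a transitive model `V` of `ZFC`

`V : Set ZFSet.{0}` is a transitive model with the true membership relation, `E ∈ V` a set,
`A 0, A 1, …` a sequence (belonging to `V`) of subsets of `E`.  Everything is relativised to `V`:
the countable unions are the unions of sequences which belong to `V`.
-/

set_option autoImplicit false

namespace Pool.MP_1c8600_lc

open Pool.PC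

/-- The sequence `f 0, f 1, …` belongs to `V`: the set of all ordered pairs `(n, f n)` is an
element of `V`. -/
def SeqIn (V : Set ZFSet.{0}) (f : ℕ → ZFSet.{0}) : Prop :=
  ∃ s ∈ V, ∀ z, z ∈ s ↔ ∃ n, z = ZFSet.pair (num n) (f n)

/-- The union of the sets `f 0, f 1, …`. -/
noncomputable def uni (f : ℕ → ZFSet.{0}) : ZFSet.{0} := ZFSet.sUnion (ZFSet.range f)

/-- `ClassV V E A a S`: in `V`, the set `S ⊆ E` belongs to the Borel class `𝓒_a` of the sequence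
`A`, where `a` is an ordinal. -/
inductive ClassV (V : Set ZFSet.{0}) (E : ZFSet.{0}) (A : ℕ → ZFSet.{0}) :
    ZFSet.{0} → ZFSet.{0} → Prop
  | gen (n : ℕ) : ClassV V E A ∅ (A n)
  | gen_compl (n : ℕ) : ClassV V E A ∅ (E \ A n)
  | union (a : ZFSet.{0}) (S b : ℕ → ZFSet.{0}) (hS : SeqIn V S) (hb : ∀ n, b n ∈ a)
      (h : ∀ n, ClassV V E A (b n) (S n)) : ClassV V E A a (uni S)
  | union_compl (a : ZFSet.{0}) (S b : ℕ → ZFSet.{0}) (hS : SeqIn V S) (hb : ∀ n, b n ∈ a)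
      (h : ∀ n, ClassV V E A (b n) (S n)) : ClassV V E A a (E \ uni S)

/-- `pw E m = E^(m+1)`, where `E^1 = E` and `E^(m+2) = E^(m+1) × E`. -/
noncomputable def pw (E : ZFSet.{0}) : ℕ → ZFSet.{0}
  | 0 => E
  | m + 1 => (pw E m).prod E

/-- The rectangle `A (n 0) × ⋯ × A (n m)` in `E^(m+1)`. -/
noncomputable def rectZ (A : ℕ → ZFSet.{0}) : ℕ → (ℕ → ℕ) → ZFSet.{0}
  | 0, n => A (n 0)
  | m + 1, n => (rectZ A m n).prod (A (n (m + 1)))

/-- `BorelV V E A m S`: in `V`, the set `S ⊆ E^(m+1)` belongs to the `σ`-algebra on `E^(m+1)`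
generated by the rectangles. -/
inductive BorelV (V : Set ZFSet.{0}) (E : ZFSet.{0}) (A : ℕ → ZFSet.{0}) (m : ℕ) :
    ZFSet.{0} → Prop
  | rect (n : ℕ → ℕ) : BorelV V E A m (rectZ A m n)
  | compl (S : ZFSet.{0}) (h : BorelV V E A m S) : BorelV V E A m (pw E m \ S)
  | union (S : ℕ → ZFSet.{0}) (hS : SeqIn V S) (h : ∀ n, BorelV V E A m (S n)) :
      BorelV V E A m (uni S)

/-- The projection of `S ⊆ X × Y` onto `X`. -/
noncomputable def projZ (X Y S : ZFSet.{0}) : ZFSet.{0} :=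
  ZFSet.sep (fun x => ∃ y ∈ Y, ZFSet.pair x y ∈ S) X

/-- `SigmaV V E A k m S`: in `V`, the set `S ⊆ E^(m+1)` belongs to `Σ_{k+1}^{(m+1)}`. -/
def SigmaV (V : Set ZFSet.{0}) (E : ZFSet.{0}) (A : ℕ → ZFSet.{0}) : ℕ → ℕ → ZFSet.{0} → Prop
  | 0, m, S => ∃ B, BorelV V E A (m + 1) B ∧ S = projZ (pw E m) E B
  | k + 1, m, S => ∃ T, SigmaV V E A k (m + 1) T ∧ S = projZ (pw E m) E (pw E (m + 1) \ T)

/-- In `V`, the set `S ⊆ E` is projective over `A`: it belongs to some `Σ_k^{(1)}` or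
`Π_k^{(1)}`. -/
def ProjectiveV (V : Set ZFSet.{0}) (E : ZFSet.{0}) (A : ℕ → ZFSet.{0}) (S : ZFSet.{0}) : Prop :=
  ∃ k, SigmaV V E A k 0 S ∨ ∃ T, SigmaV V E A k 0 T ∧ S = E \ T

/-- `a` is a countable ordinal of `V`. -/
def CountOrd (V : Set ZFSet.{0}) (a : ZFSet.{0}) : Prop :=
  a ∈ V ∧ a.IsOrdinal ∧ ∃ f ∈ V, FunOn f ZFSet.omega ∧
    ∀ x ∈ a, ∃ n ∈ ZFSet.omega, ZFSet.pair n x ∈ f

/-- Property (a) in `V`: for every countable ordinal `a` of `V`, some set of the `σ`-algebra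
generated by the `A n` is not in `𝓒_a`. -/
def PropAV (V : Set ZFSet.{0}) (E : ZFSet.{0}) (A : ℕ → ZFSet.{0}) : Prop :=
  ∀ a, CountOrd V a → ∃ S, BorelV V E A 0 S ∧ ¬ ClassV V E A a S

/-- Property (b)_{k+1} in `V`: every projective set is in `Σ_{k+1}^{(1)}`. -/
def PropBV (V : Set ZFSet.{0}) (E : ZFSet.{0}) (A : ℕ → ZFSet.{0}) (k : ℕ) : Prop :=
  ∀ S, ProjectiveV V E A S → SigmaV V E A k 0 S

/-- The negative answer in `V`, in the strongest form: no sequence of subsets of any set has both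
properties (a) and (b)_{k+1}, for any `k`. -/
def Negative (V : Set ZFSet.{0}) : Prop :=
  ∀ E ∈ V, ∀ A : ℕ → ZFSet.{0}, SeqIn V A → (∀ n, A n ⊆ E) →
    PropAV V E A → ∀ k, ¬ PropBV V E A k

end Pool.MP_1c8600_lc
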