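import Pool.Agent.Lib.MP_1c8600_lv.N3
import Pool.Agent.Lib.MP_1c8600_m.Neg

/-!
# MP_1c8600_lc: the negative half
-/

set_option autoImplicit false

namespace Pool.MP_1c8600_lc

open Pool.PC

/-- There is a countable transitive model of ZFC in which no sequence of subsets of any set has
both properties. -/
theorem exists_negative : ∃ V : Set ZFSet.{0}, V.Countable ∧ (∀ x ∈ V, ∀ y ∈ x, y ∈ V) ∧
    ZFCModel V ∧ Negative V := by
  obtain ⟨R, hR, h⟩ := Pool.LCM.negative_of_hstar
  obtain ⟨V, h1, h2, h3, h4, h5⟩ := Pool.LV.exists_model R hR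
  exact ⟨V, h1, h2, h3, h V h2 h3 h5 h4⟩

end Pool.MP_1c8600_lc
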